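import Pool.Agent.H47.SQ.Targets5
import Pool.Agent.H47.SQ.XFI

/-!
The savings of PPSZ on random k-CNFs (MP_c62aed_lc): row YFI.
-/

set_option autoImplicit false

namespace Pool.Agent.H47.SQU.YFI

open Finset Pool.Agent.H97.RK Pool.Agent.H47.SR
open Pool.Agent.H47.PL (Sat nsol Os)
open Pool.Agent.H47.SQ (success sav guess chain Refuted AlmostAll)
open Pool.Agent.H47.SQU (mean)

/-- the bound for one formula and the natural order -/
theorem yup (hEX : T_XEX) (hSU : T_XSU) (hLG : T_XLG) (n k m : ℕ) (F : Fml n k m)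
    (t t₁ d u u₁ b₀ Q a s t₀ : ℕ) (ε lam g : ℝ) (h1 : 1 ≤ t₁) (h2 : t₁ ≤ t) (h3 : u ≤ u₁)
    (h4 : u ≤ n) (h5 : 1 ≤ Q) (h6 : b₀ + 12 * t + d ≤ u) (h7 : 2 * u ≤ Q * b₀)
    (h8 : a ≤ 2 * t)
    (h9 : 2 * (s * ((2 : ℝ) ^ (4 * t) * (1 - 1 / (4 * (Q : ℝ))) ^ (u - (b₀ + d + 6 * t)))) < 1)
    (h10 : (u : ℝ) + 4 * t ≤ (1 + ε) * lam) (ht₀ : 1 ≤ t₀) (htn : 2 ^ 22 * t₀ ≤ n)
    (ha : a ≤ 2 * t₀) (hs : s ^ 12 ≤ 2 ^ (7 * ((2 ^ 22 + 4) * t₀))) (hg0 : 0 ≤ g) (hg : g ≤ 2)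
    (hG3 : ∀ t, t₀ ≤ t → 2 ^ 22 * t ≤ n →
        (badr F t (2 ^ 22 * t + 4 * t + 1) : ℝ) * 2 ^ (5 * (2 ^ 22 * t)) ≤
        2 ^ (2 ^ 22 * t₀) * (2 ^ n * g)) :
    success F a s (chain (List.finRange n)) * 2 ^ n ≤
      nsol F * (2 : ℝ) ^ ((1 + ε) * lam) +
        (badB F t t₁ d u u₁ * 2 ^ ((2 ^ 22 + 4) * t₀) + 2 ^ n * g) := by
  classical
  have hA := hSU n k m F a s
  set N := (2 : ℝ) ^ n * g with hN
  have hN0 : 0 ≤ N := by positivity
  set S0 := univ.filter fun τ : Fin n → Bool => Sat F τ with hS0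
  have hsplit : ∑ τ ∈ S0, (2 : ℝ) ^ exc (Refuted F a s) τ =
      ∑ τ ∈ S0.filter (fun τ => BG F t t₁ d u u₁ τ), (2 : ℝ) ^ exc (Refuted F a s) τ +
      ∑ τ ∈ S0.filter (fun τ => ¬ BG F t t₁ d u u₁ τ), (2 : ℝ) ^ exc (Refuted F a s) τ :=
    (sum_filter_add_sum_filter_not _ _ _).symm
  -- the good solutions
  have hB1 : ∑ τ ∈ S0.filter (fun τ => BG F t t₁ d u u₁ τ), (2 : ℝ) ^ exc (Refuted F a s) τ ≤
      nsol F * (2 : ℝ) ^ ((1 + ε) * lam) := by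
    have hB2 : ∀ τ ∈ S0.filter (fun τ => BG F t t₁ d u u₁ τ),
        (2 : ℝ) ^ exc (Refuted F a s) τ ≤ (2 : ℝ) ^ ((1 + ε) * lam) := by
      intro τ hτ
      rw [mem_filter] at hτ
      have h11 := hEX n k m F t t₁ d u u₁ b₀ Q a s h1 h2 h3 h4 h5 h6 h7 h8 h9 τ
        (mem_filter.1 hτ.1).2 hτ.2
      rw [← Real.rpow_natCast]
      refine Real.rpow_le_rpow_of_exponent_le (by norm_num) (le_trans ?_ h10)
      exact_mod_cast h11
    have hB3 : ((S0.filter (fun τ => BG F t t₁ d u u₁ τ)).card : ℝ) ≤ nsol F := by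
      have : (S0.filter (fun τ => BG F t t₁ d u u₁ τ)).card ≤ S0.card :=
        card_le_card (filter_subset _ _)
      exact_mod_cast this
    calc ∑ τ ∈ S0.filter (fun τ => BG F t t₁ d u u₁ τ), (2 : ℝ) ^ exc (Refuted F a s) τ
        ≤ ∑ _τ ∈ S0.filter (fun τ => BG F t t₁ d u u₁ τ), (2 : ℝ) ^ ((1 + ε) * lam) :=
          sum_le_sum hB2
      _ = (S0.filter (fun τ => BG F t t₁ d u u₁ τ)).card * (2 : ℝ) ^ ((1 + ε) * lam) := by
          rw [sum_const, nsmul_eq_mul]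
      _ ≤ _ := mul_le_mul_of_nonneg_right hB3 (by positivity)
  -- the bad solutions
  have hC1 : ∑ τ ∈ S0.filter (fun τ => ¬ BG F t t₁ d u u₁ τ),
      (2 : ℝ) ^ exc (Refuted F a s) τ ≤
        badB F t t₁ d u u₁ * 2 ^ ((2 ^ 22 + 4) * t₀) + N := by
    have hC2 := hLG n k m F t₀ (2 ^ (2 ^ 22 * t₀) * N)
      (S0.filter (fun τ => ¬ BG F t t₁ d u u₁ τ)) ht₀ htn
      (fun τ hτ => (mem_filter.1 (mem_filter.1 hτ).1).2) (by
        calc (2 : ℝ) ^ (2 ^ 22 * t₀) * N ≤ 2 ^ (2 ^ 22 * t₀) * (2 ^ n * 2) := by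
              rw [hN]
              gcongr
          _ = _ := by rw [pow_add, pow_add]; ring) hG3 a s ha hs
    refine hC2.trans (add_le_add (le_of_eq ?_) ?_)
    · have hC3 : (S0.filter (fun τ => ¬ BG F t t₁ d u u₁ τ)).card = badB F t t₁ d u u₁ := by
        unfold badB
        rw [hS0, filter_filter]
      rw [hC3]
    · have h12 : (2 : ℝ) ^ (2 ^ 22 * t₀) * N / 2 ^ (2 * (2 ^ 22 * t₀)) =
          N / 2 ^ (2 ^ 22 * t₀) := by
        rw [two_mul, pow_add]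
        field_simp
      rw [h12]
      refine div_le_self hN0 (one_le_pow₀ (by norm_num))
  refine hA.trans ?_
  rw [hsplit]
  exact add_le_add hB1 hC1

theorem rn_rn {n k m : ℕ} (π : Equiv.Perm (Fin n)) (F : Fml n k m) : rn π (rn π⁻¹ F) = F := by
  funext c i
  simp [rn]

/-- the bound for a random order -/
theorem ymean (hRN : T_YRN) (hSO : T_YSO) (hEX : T_XEX) (hSU : T_XSU) (hLG : T_XLG)
    (n k m : ℕ) (F : Fml n k m) (μ : Equiv.Perm (Fin n) → ℝ) (hμ : ∀ π, 0 ≤ μ π)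
    (hμ1 : ∑ π, μ π = 1)
    (t t₁ d u u₁ b₀ Q a s t₀ : ℕ) (ε lam g : ℝ) (h1 : 1 ≤ t₁) (h2 : t₁ ≤ t) (h3 : u ≤ u₁)
    (h4 : u ≤ n) (h5 : 1 ≤ Q) (h6 : b₀ + 12 * t + d ≤ u) (h7 : 2 * u ≤ Q * b₀)
    (h8 : a ≤ 2 * t)
    (h9 : 2 * (s * ((2 : ℝ) ^ (4 * t) * (1 - 1 / (4 * (Q : ℝ))) ^ (u - (b₀ + d + 6 * t)))) < 1)
    (h10 : (u : ℝ) + 4 * t ≤ (1 + ε) * lam) (ht₀ : 1 ≤ t₀) (htn : 2 ^ 22 * t₀ ≤ n)
    (ha : a ≤ 2 * t₀) (hs : s ^ 12 ≤ 2 ^ (7 * ((2 ^ 22 + 4) * t₀))) (hg0 : 0 ≤ g) (hg : g ≤ 2)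
    (hG1 : (nsol F : ℝ) ≤ (2 : ℝ) ^ (ε * lam) * (2 ^ n * g))
    (hG2 : (∑ π, μ π * (badB (rn π⁻¹ F) t t₁ d u u₁ : ℝ)) * 2 ^ ((2 ^ 22 + 4) * t₀) ≤ 2 ^ n * g)
    (hG3 : ∀ t, t₀ ≤ t → 2 ^ 22 * t ≤ n →
        (badr F t (2 ^ 22 * t + 4 * t + 1) : ℝ) * 2 ^ (5 * (2 ^ 22 * t)) ≤
        2 ^ (2 ^ 22 * t₀) * (2 ^ n * g)) (hε : 0 ≤ ε) (hlam : 2 ≤ ε * lam) :
    mean F a s μ ≤ (2 : ℝ) ^ ((1 + 3 * ε) * lam) * g := by
  set N := (2 : ℝ) ^ n * g with hN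
  have hN0 : 0 ≤ N := by positivity
  have hpi : ∀ π : Equiv.Perm (Fin n), success F a s (chain (List.ofFn π)) * 2 ^ n ≤
      nsol F * (2 : ℝ) ^ ((1 + ε) * lam) +
        (badB (rn π⁻¹ F) t t₁ d u u₁ * 2 ^ ((2 ^ 22 + 4) * t₀) + N) := by
    intro π
    have e1 := hRN n k m (rn π⁻¹ F) π a s
    rw [rn_rn] at e1
    rw [e1]
    obtain ⟨e2, e3⟩ := hSO n k m F π⁻¹
    have e4 := yup hEX hSU hLG n k m (rn π⁻¹ F) t t₁ d u u₁ b₀ Q a s t₀ ε lam g h1 h2 h3 h4 h5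
      h6 h7 h8 h9 h10 ht₀ htn ha hs hg0 hg (fun t' h h' => by
        rw [e3]
        exact hG3 t' h h')
    rw [e2] at e4
    exact e4
  have hD : mean F a s μ * 2 ^ n ≤ ((2 : ℝ) ^ ((1 + 3 * ε) * lam) * g) * 2 ^ n := by
    have hlam0 : 0 ≤ ε * lam := by linarith
    calc mean F a s μ * 2 ^ n
        = ∑ π, μ π * (success F a s (chain (List.ofFn π)) * 2 ^ n) := by
          unfold mean
          rw [sum_mul]
          exact sum_congr rfl fun π _ => by ring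
      _ ≤ ∑ π, μ π * (nsol F * (2 : ℝ) ^ ((1 + ε) * lam) +
          (badB (rn π⁻¹ F) t t₁ d u u₁ * 2 ^ ((2 ^ 22 + 4) * t₀) + N)) :=
          sum_le_sum fun π _ => mul_le_mul_of_nonneg_left (hpi π) (hμ π)
      _ = (∑ π, μ π) * (nsol F * (2 : ℝ) ^ ((1 + ε) * lam)) +
          ((∑ π, μ π * (badB (rn π⁻¹ F) t t₁ d u u₁ : ℝ)) * 2 ^ ((2 ^ 22 + 4) * t₀) +
            (∑ π, μ π) * N) := by
          rw [sum_mul, sum_mul, sum_mul, ← sum_add_distrib, ← sum_add_distrib]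
          exact sum_congr rfl fun π _ => by ring
      _ ≤ (2 : ℝ) ^ (ε * lam) * N * (2 : ℝ) ^ ((1 + ε) * lam) + (N + N) := by
          rw [hμ1, one_mul, one_mul]
          exact add_le_add (mul_le_mul_of_nonneg_right hG1 (by positivity))
            (add_le_add hG2 le_rfl)
      _ = ((2 : ℝ) ^ (lam + 2 * (ε * lam)) + 2) * N := by
          have : (2 : ℝ) ^ (lam + 2 * (ε * lam)) =
              (2 : ℝ) ^ (ε * lam) * (2 : ℝ) ^ ((1 + ε) * lam) := by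
            rw [← Real.rpow_add (by norm_num)]
            congr 1
            ring
          rw [this]
          ring
      _ ≤ (2 : ℝ) ^ ((1 + 3 * ε) * lam) * N := by
          refine mul_le_mul_of_nonneg_right ?_ hN0
          have h13 : (2 : ℝ) ^ ((1 + 3 * ε) * lam) =
              (2 : ℝ) ^ (lam + 2 * (ε * lam)) * (2 : ℝ) ^ (ε * lam) := by
            rw [← Real.rpow_add (by norm_num)]
            congr 1
            ring
          have h14 : (4 : ℝ) ≤ (2 : ℝ) ^ (ε * lam) := by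
            calc (4 : ℝ) = (2 : ℝ) ^ (2 : ℝ) := by
                  rw [show (2 : ℝ) = ((2 : ℕ) : ℝ) by norm_num, Real.rpow_natCast]
                  norm_num
              _ ≤ _ := Real.rpow_le_rpow_of_exponent_le (by norm_num) hlam
          have h15 : (1 : ℝ) ≤ (2 : ℝ) ^ (lam + 2 * (ε * lam)) := by
            refine Real.one_le_rpow (by norm_num) ?_
            have h16 : 0 ≤ lam := by
              rcases hε.lt_or_eq with h | h
              · by_contra h17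
                have : ε * lam < 0 := mul_neg_of_pos_of_neg h (not_le.1 h17)
                linarith
              · rw [← h] at hlam
                linarith
            linarith
          rw [h13]
          nlinarith
      _ = _ := by rw [hN]; ring
  exact le_of_mul_le_mul_right hD (by positivity)

open Classical in
/-- the sums of the means -/
theorem ysum (hSU : T_YSU) (n k m : ℕ) (μ : Equiv.Perm (Fin n) → ℝ) (hμ1 : ∑ π, μ π = 1)
    (f : Fml n k m → ℝ) :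
    (∑ F ∈ univ.filter fun F : Fml n k m => Dist F, ∑ π, μ π * f (rn π⁻¹ F)) =
      (∑ F ∈ univ.filter fun F : Fml n k m => Dist F, f F) ∧
    (∑ p ∈ univ.filter fun p : Fml n k m × (Fin n → Bool) => Dist p.1 ∧ Sat p.1 p.2,
      ∑ π, μ π * f (rn π⁻¹ p.1)) =
      ∑ p ∈ univ.filter fun p : Fml n k m × (Fin n → Bool) => Dist p.1 ∧ Sat p.1 p.2, f p.1 := by
  constructor
  · rw [sum_comm]
    calc _ = ∑ π, μ π * ∑ F ∈ univ.filter fun F : Fml n k m => Dist F, f F := by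
          refine sum_congr rfl fun π _ => ?_
          rw [← mul_sum, (hSU n k m π⁻¹ f).1]
      _ = _ := by rw [← sum_mul, hμ1, one_mul]
  · rw [sum_comm]
    calc _ = ∑ π, μ π * ∑ p ∈ univ.filter fun p : Fml n k m × (Fin n → Bool) =>
            Dist p.1 ∧ Sat p.1 p.2, f p.1 := by
          refine sum_congr rfl fun π _ => ?_
          rw [← mul_sum, (hSU n k m π⁻¹ f).2]
      _ = _ := by rw [← sum_mul, hμ1, one_mul]

theorem pT_nonneg (n k m t t₁ d u u₁ : ℕ) (hd : d ≤ n) (hu₁ : u₁ ≤ n) :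
    0 ≤ pT n k m t t₁ d u u₁ := by
  have e1 : (d : ℝ) ≤ n := by exact_mod_cast hd
  have e2 : (u₁ : ℝ) ≤ n := by exact_mod_cast hu₁
  have e3 : (0 : ℝ) ≤ (n : ℝ) - d + 12 * t := by
    have : (0 : ℝ) ≤ (t : ℝ) := Nat.cast_nonneg _
    linarith
  unfold pT prB prE
  refine add_nonneg (by positivity) (mul_nonneg (by positivity) (sum_nonneg fun s _ => ?_))
  have e4 : (0 : ℝ) ≤ (n : ℝ) - u₁ + 4 * s := by
    have : (0 : ℝ) ≤ (s : ℝ) := Nat.cast_nonneg _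
    linarith
  positivity

/-- every order -/
theorem yexact (hRN : T_YRN) (hSO : T_YSO) (hSM : T_YSU) (hGO : T_YGO) (hLO : T_YLO)
    (hEX : T_XEX) (hSU : T_XSU) (hLG : T_XLG) (hNP : T_XNP) (hEU : T_XEU) (hEP : T_XEP)
    (hNL : T_XNL) :
    ∀ ε : ℝ, 0 < ε → ∃ (c : ℝ) (K : ℕ), 0 < c ∧ ∀ k n m : ℕ, K ≤ k → K * k ≤ n →
    (2 : ℝ) ^ k * n ≤ (k : ℝ) ^ c * m → (m : ℝ) ≤ (2 : ℝ) ^ ((1 + c) * k) * n →
    ∀ μ : Equiv.Perm (Fin n) → ℝ, (∀ π, 0 ≤ μ π) → ∑ π, μ π = 1 →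
    (∃ G : Set (Pool.Agent.H47.SQ.Fml n k m), AlmostAll G ∧ ∀ F ∈ G, ∀ a s : ℕ, a ≤ n / k →
      (s : ℝ) ≤ (2 : ℝ) ^ (c * sav n k m * n) →
      mean F a s μ ≤ (2 : ℝ) ^ ((1 + ε) * sav n k m * n) * guess n k m) ∧
    (n : ℝ) * Nat.card {p : Pool.Agent.H47.SQ.Fml n k m × (Fin n → Bool) //
      Pool.Agent.H47.SQ.Dist p.1 ∧ Pool.Agent.H47.SQ.Sat p.1 p.2 ∧
      ¬ (2 : ℝ) ^ ((1 - ε) * sav n k m * n) * guess n k m ≤ mean p.1 1 1 μ} ≤
      Nat.card {p : Pool.Agent.H47.SQ.Fml n k m × (Fin n → Bool) //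
        Pool.Agent.H47.SQ.Dist p.1 ∧ Pool.Agent.H47.SQ.Sat p.1 p.2} := by
  intro ε hε
  obtain ⟨e, he⟩ : ∃ e : ℝ, e = min ε 1 / 3 := ⟨_, rfl⟩
  have he0 : 0 < e := by
    rw [he]
    have : 0 < min ε 1 := lt_min hε one_pos
    linarith
  have he1 : e ≤ 1 := by
    rw [he]
    have := min_le_right ε 1
    linarith
  have he3 : 3 * e ≤ ε := by
    rw [he]
    have := min_le_left ε 1
    linarith
  obtain ⟨c₁, K₁, Q, hc₁, hQ, h1⟩ := hNP e he0 he1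
  obtain ⟨c₂, K₂, hc₂, h2⟩ := hGO e he0
  obtain ⟨c₃, K₃, hc₃, h3⟩ := hNL (min ε 1) (lt_min hε one_pos) (min_le_right _ _)
  obtain ⟨c, hc⟩ : ∃ c : ℝ, c = min (min c₁ c₂) (min c₃ (1 / 2 ^ 50)) := ⟨_, rfl⟩
  have hc0 : 0 < c := by
    rw [hc]
    exact lt_min (lt_min hc₁ hc₂) (lt_min hc₃ (by positivity))
  have hcc1 : c ≤ c₁ := by
    rw [hc]
    exact (min_le_left _ _).trans (min_le_left _ _)
  have hcc2 : c ≤ c₂ := by
    rw [hc]
    exact (min_le_left _ _).trans (min_le_right _ _)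
  have hcc3 : c ≤ c₃ := by
    rw [hc]
    exact (min_le_right _ _).trans (min_le_left _ _)
  have hcc4 : c ≤ 1 / 2 ^ 50 := by
    rw [hc]
    exact (min_le_right _ _).trans (min_le_right _ _)
  obtain ⟨K, hK⟩ : ∃ K : ℕ, K = K₁ + K₂ + K₃ + 2 ^ 104 + ⌈2 / e⌉₊ := ⟨_, rfl⟩
  refine ⟨c, K, hc0, ?_⟩
  intro k n m hk hn hm1 hm2 μ hμ hμ1
  have hK1 : 1 ≤ K := by omega
  have hk104 : 2 ^ 104 ≤ k := by omega
  have hkn : k ≤ n := by
    have : 1 * k ≤ K * k := Nat.mul_le_mul_right _ hK1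
    omega
  have hk2 : 2 ≤ k := by omega
  have hn1 : 1 ≤ n := by omega
  have hk1' : (1 : ℝ) ≤ k := by exact_mod_cast (by omega : 1 ≤ k)
  have hn0 : (0 : ℝ) < n := by exact_mod_cast hn1
  have hmono : ∀ c' : ℝ, c ≤ c' → (2 : ℝ) ^ k * n ≤ (k : ℝ) ^ c' * m := by
    intro c' hc'
    refine hm1.trans ?_
    exact mul_le_mul_of_nonneg_right (Real.rpow_le_rpow_of_exponent_le hk1' hc')
      (Nat.cast_nonneg _)
  have hmono2 : ∀ c' : ℝ, c ≤ c' → (m : ℝ) ≤ (2 : ℝ) ^ ((1 + c') * k) * n := by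
    intro c' hc'
    refine hm2.trans ?_
    have : (2 : ℝ) ^ ((1 + c) * k) ≤ (2 : ℝ) ^ ((1 + c') * k) := by
      refine Real.rpow_le_rpow_of_exponent_le (by norm_num) ?_
      nlinarith
    exact mul_le_mul_of_nonneg_right this hn0.le
  obtain ⟨hl1, hl2⟩ := lam_large k n m K (by omega) hn
  have hsv := sav_small k n m c hk104 hn1 hc0.le hm2
  have hKe : 2 / e ≤ K := by
    have h4 : 2 / e ≤ ⌈2 / e⌉₊ := Nat.le_ceil _
    have h5 : (⌈2 / e⌉₊ : ℝ) ≤ K := by exact_mod_cast (by omega : ⌈2 / e⌉₊ ≤ K)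
    linarith
  constructor
  · obtain ⟨t, t₁, d, u, u₁, b₀, q1, q2, q3, q4, q5, q6, q7, q8, q9, q10, q11⟩ :=
      h1 k n m (by omega) ((Nat.mul_le_mul_right _ (by omega)).trans hn) (hmono2 c₁ hcc1)
    obtain ⟨t₀, ht₀⟩ : ∃ t₀, t₀ = ⌈2 ^ 20 * sav n k m * n⌉₊ := ⟨_, rfl⟩
    have hK0 : (2 : ℝ) ^ 104 ≤ K := by exact_mod_cast (by omega : 2 ^ 104 ≤ K)
    have hlam1 : (1 : ℝ) ≤ sav n k m * n := by
      have : (1 : ℝ) ≤ 2 ^ 104 := by norm_num
      linarith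
    have ht1 : 2 ^ 20 * sav n k m * n ≤ t₀ := by
      rw [ht₀]
      exact Nat.le_ceil _
    have ht1' : 2 ^ 20 * (sav n k m * n) ≤ t₀ := by
      rw [← mul_assoc]
      exact ht1
    have ht2 : (t₀ : ℝ) ≤ 2 ^ 20 * sav n k m * n + 1 := by
      rw [ht₀]
      refine (Nat.ceil_lt_add_one ?_).le
      rw [mul_assoc]
      linarith
    have ht2' : (t₀ : ℝ) ≤ 2 ^ 20 * (sav n k m * n) + 1 := by
      rw [← mul_assoc]
      exact ht2
    have ht3 : 1 ≤ t₀ := by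
      have : (0 : ℝ) < t₀ := by linarith
      exact_mod_cast this
    have hn104 : (2 : ℝ) ^ 104 ≤ n := by
      exact_mod_cast hk104.trans hkn
    have hlamn : sav n k m * n ≤ (1 / 2 ^ 49) * n := by
      refine mul_le_mul_of_nonneg_right ?_ hn0.le
      have : (1 : ℝ) / 2 ^ 49 = 1 / 2 ^ 50 + 1 / 2 ^ 50 := by norm_num
      linarith
    have ht4 : 2 ^ 22 * t₀ ≤ n := by
      have : (2 : ℝ) ^ 22 * t₀ ≤ n := by nlinarith
      exact_mod_cast this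
    obtain ⟨s1, s2⟩ := ysum hSM n k m μ hμ1 fun F => (badB F t t₁ d u u₁ : ℝ)
    obtain ⟨G, hG, hGF⟩ := h2 k n m (by omega) ((Nat.mul_le_mul_right _ (by omega)).trans hn)
      (hmono c₂ hcc2) (hmono2 c₂ hcc2) t₀
      (fun F => ∑ π, μ π * (badB (rn π⁻¹ F) t t₁ d u u₁ : ℝ)) (pT n k m t t₁ d u u₁)
      ht1 ht2 ht4 (fun F => sum_nonneg fun π _ => mul_nonneg (hμ π) (Nat.cast_nonneg _))
      (pT_nonneg n k m t t₁ d u u₁ q6 q5)
      (s1.le.trans (hEU n k m t t₁ d u u₁ (by omega) hkn q6 q5))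
      (s2.le.trans (hEP n k m t t₁ d u u₁ hk2 hkn q6 q5)) q10
    refine ⟨G, hG, ?_⟩
    intro F hF a s ha hs
    obtain ⟨g1, g2, g3⟩ := hGF F hF
    have hle : (2 : ℝ) ^ ((1 + 3 * e) * (sav n k m * n)) ≤
        (2 : ℝ) ^ ((1 + ε) * sav n k m * n) := by
      refine Real.rpow_le_rpow_of_exponent_le (by norm_num) ?_
      rw [mul_assoc (1 + ε)]
      refine mul_le_mul_of_nonneg_right (by linarith) (by linarith)
    have ha1 : a ≤ 2 * t := by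
      refine ha.trans (Nat.div_le_of_le_mul ?_)
      rw [mul_comm]
      exact q3
    have ha2 : a ≤ 2 * t₀ := by
      have h8 : (a : ℝ) ≤ ((n / k : ℕ) : ℝ) := by exact_mod_cast ha
      have h5 : (a : ℝ) ≤ n / k := h8.trans Nat.cast_div_le
      have h6 : (a : ℝ) ≤ t₀ := by linarith
      have h7 : a ≤ t₀ := by exact_mod_cast h6
      omega
    have hs' : (s : ℝ) ≤ (2 : ℝ) ^ (c * (sav n k m * n)) := by
      rw [← mul_assoc]
      exact hs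
    have hs12 : s ^ 12 ≤ 2 ^ (7 * ((2 ^ 22 + 4) * t₀)) := by
      have h5 : (s : ℝ) ^ 12 ≤ (2 : ℝ) ^ (7 * ((2 ^ 22 + 4) * t₀)) := by
        calc (s : ℝ) ^ 12 ≤ ((2 : ℝ) ^ (c * (sav n k m * n))) ^ 12 := by gcongr
          _ = (2 : ℝ) ^ (c * (sav n k m * n) * 12) := by
              rw [← Real.rpow_natCast, ← Real.rpow_mul (by norm_num)]
              norm_num
          _ ≤ (2 : ℝ) ^ ((7 * ((2 ^ 22 + 4) * t₀) : ℕ) : ℝ) := by
              refine Real.rpow_le_rpow_of_exponent_le (by norm_num) ?_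
              push_cast
              have h6 : c ≤ 1 := by
                have : (1 : ℝ) / 2 ^ 50 ≤ 1 := by norm_num
                linarith
              nlinarith
          _ = _ := by rw [Real.rpow_natCast]
      exact_mod_cast h5
    have hQ4 : (0 : ℝ) ≤ 1 - 1 / (4 * (Q : ℝ)) := by
      have hQ1 : (1 : ℝ) ≤ Q := by exact_mod_cast hQ
      have : 1 / (4 * (Q : ℝ)) ≤ 1 := by
        rw [div_le_one (by linarith)]
        linarith
      linarith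
    refine le_trans (ymean hRN hSO hEX hSU hLG n k m F μ hμ hμ1 t t₁ d u u₁ b₀ Q a s t₀ e
      (sav n k m * n) (guess n k m) q1 q2 q4 (q4.trans q5) hQ q7 q8 ha1 ?_ ?_ ht3 ht4 ha2 hs12
      (guess_pos n k m).le (guess_le n k m) ?_ g2 g3 he0.le ?_) ?_
    · refine lt_of_le_of_lt ?_ q11
      have h5 : (s : ℝ) ≤ (2 : ℝ) ^ (c₁ * sav n k m * n) := by
        refine hs'.trans (Real.rpow_le_rpow_of_exponent_le (by norm_num) ?_)
        rw [mul_assoc c₁]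
        exact mul_le_mul_of_nonneg_right hcc1 (by linarith)
      gcongr
    · rw [← mul_assoc]
      exact q9
    · have h5 := g1
      rw [mul_assoc e] at h5
      exact h5
    · have h5 : 2 / e ≤ sav n k m * n := hKe.trans hl1
      rw [div_le_iff₀ he0] at h5
      linarith
    · exact mul_le_mul_of_nonneg_right hle (guess_pos n k m).le
  · obtain ⟨h, u, huh, hhn, hbig, hnum⟩ := h3 k n m (by omega)
      ((Nat.mul_le_mul_right _ (by omega)).trans hn) (hmono c₃ hcc3) (hmono2 c₃ hcc3)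
    refine hLO n k m h u μ ((2 : ℝ) ^ ((1 - ε) * sav n k m * n)) hμ hμ1 (by omega) hkn huh hhn
      (by positivity) (le_trans ?_ hbig) hnum
    have h5 : (2 : ℝ) ^ ((1 - ε) * sav n k m * n) ≤
        (2 : ℝ) ^ ((1 - min ε 1) * sav n k m * n) := by
      refine Real.rpow_le_rpow_of_exponent_le (by norm_num) ?_
      rw [mul_assoc, mul_assoc]
      refine mul_le_mul_of_nonneg_right ?_ ?_
      · have := min_le_left ε 1
        linarith
      · have : (0 : ℝ) ≤ K := Nat.cast_nonneg _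
        linarith
    gcongr

/-- (YFI) everything together. -/
theorem pf_YFI : T_YFI := by
  intro hRN hSO hSM hGO hLO hEX hSU hLG hNP hEU hEP hNL hSH ε hε
  obtain ⟨c₁, K₁, hc₁, hK₁⟩ := yexact hRN hSO hSM hGO hLO hEX hSU hLG hNP hEU hEP hNL ε hε
  obtain ⟨c₂, K₂, hc₂, hK₂⟩ := hSH ε hε
  obtain ⟨c, hc⟩ : ∃ c : ℝ, c = min c₁ c₂ := ⟨_, rfl⟩
  have hc0 : 0 < c := by
    rw [hc]
    exact lt_min hc₁ hc₂
  have hcc1 : c ≤ c₁ := by
    rw [hc]
    exact min_le_left _ _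
  have hcc2 : c ≤ c₂ := by
    rw [hc]
    exact min_le_right _ _
  refine ⟨c, K₁ + K₂ + 1, hc0, fun k n m hk hn hm1 hm2 μ hμ hμ1 => ?_⟩
  have hk1 : 1 ≤ k := by omega
  have hk1' : (1 : ℝ) ≤ k := by exact_mod_cast hk1
  have hsav : 0 ≤ sav n k m * n := by
    have h0 : (0 : ℝ) ≤ m / (2 ^ k * n) := by positivity
    have h1 : 0 ≤ Real.log (k * (1 + m / (2 ^ k * n))) := by
      refine Real.log_nonneg ?_
      have h2 : (1 : ℝ) * 1 ≤ k * (1 + m / (2 ^ k * n)) :=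
        mul_le_mul hk1' (by linarith) (by norm_num) (by linarith)
      linarith
    unfold sav
    positivity
  have hms : ∀ (c' : ℝ) (s : ℕ), c ≤ c' → (s : ℝ) ≤ (2 : ℝ) ^ (c * sav n k m * n) →
      (s : ℝ) ≤ (2 : ℝ) ^ (c' * sav n k m * n) := by
    intro c' s hc' hs
    refine hs.trans (Real.rpow_le_rpow_of_exponent_le (by norm_num) ?_)
    rw [mul_assoc, mul_assoc]
    exact mul_le_mul_of_nonneg_right hc' hsav
  have hm1' : (2 : ℝ) ^ k * n ≤ (k : ℝ) ^ c₁ * m :=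
    hm1.trans (mul_le_mul_of_nonneg_right (Real.rpow_le_rpow_of_exponent_le hk1' hcc1)
      (Nat.cast_nonneg _))
  have hm2' : ∀ c' : ℝ, c ≤ c' → (m : ℝ) ≤ (2 : ℝ) ^ ((1 + c') * k) * n := by
    intro c' hc'
    refine hm2.trans (mul_le_mul_of_nonneg_right ?_ (Nat.cast_nonneg _))
    exact Real.rpow_le_rpow_of_exponent_le (by norm_num)
      (mul_le_mul_of_nonneg_right (by linarith) (by linarith))
  obtain ⟨⟨G₁, hG₁, hGF₁⟩, hL⟩ := hK₁ k n m (by omega)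
    ((Nat.mul_le_mul_right _ (by omega)).trans hn) hm1' (hm2' c₁ hcc1) μ hμ hμ1
  refine ⟨?_, hL⟩
  by_cases hcase : k ^ (K₁ + K₂ + 1) * (2 ^ k * n) ≤ m
  · obtain ⟨G₂, hG₂, hGF₂⟩ := hK₂ k n m (by omega)
      ((Nat.mul_le_mul_right _ (by omega)).trans hn)
      ((Nat.mul_le_mul_right _ (Nat.pow_le_pow_right hk1 (by omega))).trans hcase)
      (hm2' c₂ hcc2)
    refine ⟨G₂, hG₂, fun F hF a s ha hs => ⟨?_, fun _ T => hGF₂ F hF a s T ha (hms c₂ s hcc2 hs)⟩⟩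
    unfold mean
    calc ∑ π, μ π * success F a s (chain (List.ofFn π))
        ≤ ∑ π, μ π * ((2 : ℝ) ^ ((1 + ε) * sav n k m * n) * guess n k m) :=
          sum_le_sum fun π _ => mul_le_mul_of_nonneg_left
            (hGF₂ F hF a s _ ha (hms c₂ s hcc2 hs)) (hμ π)
      _ = _ := by rw [← sum_mul, hμ1, one_mul]
  · exact ⟨G₁, hG₁, fun F hF a s ha hs => ⟨hGF₁ F hF a s ha (hms c₁ s hcc1 hs),
      fun h => absurd h hcase⟩⟩

end Pool.Agent.H47.SQU.YFI
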