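import Pool.Agent.H47.SQ.Targets5
import Pool.Agent.H47.PL.FN2

/-!
The savings of backtracking search on random k-CNFs (MP_c62aed_lc): row YGO, the good formulas
(copy of the module XGO of helper7 with a general function).
-/

set_option autoImplicit false

namespace Pool.Agent.H47.SQU.YGO

open Finset Pool.Agent.H97.RK Pool.Agent.H41.SS Pool.Agent.H47.SR
open Pool.Agent.H47.PL (Sat Agr Con dm nsol Os card_all card_dist markov_uni)
open Pool.Agent.H47.SQ (Derivation Refuted Find success sav guess AlmostAll)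

private theorem nc {α : Type} [Fintype α] (q : α → Prop) [inst : DecidablePred q] :
    Nat.card {a // q a} = (@Finset.filter α q inst univ).card := by
  rw [Nat.card_eq_fintype_card, Fintype.card_subtype]

private theorem si {α : Type} [Fintype α] {p : α → Prop} {i1 i2 : DecidablePred p} {f : α → ℝ}
    {B : ℝ} (h : ∑ a ∈ @Finset.filter α p i1 univ, f a ≤ B) :
    ∑ a ∈ @Finset.filter α p i2 univ, f a ≤ B := by
  rw [Subsingleton.elim i2 i1]
  exact h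

/-- Markov -/
private theorem mk {α : Type} [Fintype α] (p : α → Prop) {inst : DecidablePred p} (f : α → ℝ)
    (hf : ∀ a, 0 ≤ f a) (w N B : ℝ) (hw : 0 ≤ w)
    (hB : ∑ a ∈ @Finset.filter α p inst univ, f a ≤ B) :
    (Nat.card {a // p a ∧ N < f a * w} : ℝ) * N ≤ B * w := by
  classical
  rw [nc (fun a => p a ∧ N < f a * w)]
  calc _ = ∑ _a ∈ univ.filter (fun a => p a ∧ N < f a * w), N := by
        rw [sum_const, nsmul_eq_mul]
    _ ≤ ∑ a ∈ univ.filter (fun a => p a ∧ N < f a * w), f a * w :=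
        sum_le_sum fun a ha => (mem_filter.1 ha).2.2.le
    _ ≤ ∑ a ∈ @Finset.filter α p inst univ, f a * w :=
        sum_le_sum_of_subset_of_nonneg (fun a ha => by
          rw [mem_filter] at ha ⊢
          exact ⟨ha.1, ha.2.1⟩) (fun a _ _ => mul_nonneg (hf a) hw)
    _ = (∑ a ∈ @Finset.filter α p inst univ, f a) * w := by rw [sum_mul]
    _ ≤ B * w := mul_le_mul_of_nonneg_right hB hw

private theorem half {α : Type} [Fintype α] (p g q0 q1 : α → Prop) (q : ℕ → α → Prop) (I : ℕ)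
    (n T H : ℝ) (hT : 0 ≤ T) (hH : 0 < H)
    (hg : ∀ a, ¬ g a → q0 a ∨ q1 a ∨ ∃ i, i ≤ I ∧ q i a)
    (h0 : (Nat.card {a // p a ∧ q0 a} : ℝ) * H ≤ T)
    (h1 : (Nat.card {a // p a ∧ q1 a} : ℝ) * H ≤ T)
    (hi : ∀ i, i ≤ I → (Nat.card {a // p a ∧ q i a} : ℝ) * (H * 2 ^ (i + 1)) ≤ T)
    (hn : 4 * n ≤ H) : n * (Nat.card {a // p a ∧ ¬ g a} : ℝ) ≤ T := by
  classical
  have c0 := nc (fun a => p a ∧ q0 a)
  have c1 := nc (fun a => p a ∧ q1 a)
  have ci := fun i => nc (fun a => p a ∧ q i a)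
  have cg := nc (fun a => p a ∧ ¬ g a)
  have hsub : (univ.filter fun a => p a ∧ ¬ g a) ⊆ (univ.filter fun a => p a ∧ q0 a) ∪
      ((univ.filter fun a => p a ∧ q1 a) ∪
        (range (I + 1)).biUnion fun i => univ.filter fun a => p a ∧ q i a) := by
    intro a ha
    rw [mem_filter] at ha
    rw [mem_union, mem_union, mem_biUnion]
    rcases hg a ha.2.2 with h3 | h3 | ⟨i, hi', h3⟩
    · left
      rw [mem_filter]
      exact ⟨mem_univ _, ha.2.1, h3⟩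
    · right; left
      rw [mem_filter]
      exact ⟨mem_univ _, ha.2.1, h3⟩
    · right; right
      refine ⟨i, mem_range.2 (by omega), ?_⟩
      rw [mem_filter]
      exact ⟨mem_univ _, ha.2.1, h3⟩
  have h3 : (Nat.card {a // p a ∧ ¬ g a} : ℝ) ≤
      (Nat.card {a // p a ∧ q0 a} : ℝ) + ((Nat.card {a // p a ∧ q1 a} : ℝ) +
      ∑ i ∈ range (I + 1), (Nat.card {a // p a ∧ q i a} : ℝ)) := by
    have h4 := (card_le_card hsub).trans ((card_union_le _ _).trans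
      (Nat.add_le_add_left ((card_union_le _ _).trans
        (Nat.add_le_add_left card_biUnion_le _)) _))
    rw [← cg, ← c0, ← c1, sum_congr rfl fun i _ => (ci i).symm] at h4
    exact_mod_cast h4
  have h5 : (∑ i ∈ range (I + 1), (Nat.card {a // p a ∧ q i a} : ℝ)) * H ≤
      T * ∑ i ∈ range (I + 1), (1 / 2 : ℝ) ^ (i + 1) := by
    rw [mul_sum, sum_mul]
    refine sum_le_sum fun i hi' => ?_
    have h6 := hi i (by have := mem_range.1 hi'; omega)
    have h7 : (1 / 2 : ℝ) ^ (i + 1) * 2 ^ (i + 1) = 1 := by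
      rw [← mul_pow]
      norm_num
    have h8 : (0 : ℝ) ≤ (1 / 2 : ℝ) ^ (i + 1) := by positivity
    calc (Nat.card {a // p a ∧ q i a} : ℝ) * H
        = (Nat.card {a // p a ∧ q i a} : ℝ) * (H * 2 ^ (i + 1)) *
          (1 / 2 : ℝ) ^ (i + 1) := by
          linear_combination -(Nat.card {a // p a ∧ q i a} : ℝ) * H * h7
      _ ≤ T * (1 / 2 : ℝ) ^ (i + 1) := mul_le_mul_of_nonneg_right h6 h8
  have h6 : ∑ i ∈ range (I + 1), (1 / 2 : ℝ) ^ (i + 1) ≤ 1 := by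
    have h7 : ∀ J : ℕ, ∑ i ∈ range J, (1 / 2 : ℝ) ^ (i + 1) = 1 - (1 / 2 : ℝ) ^ J := by
      intro J
      induction J with
      | zero => simp
      | succ J ih =>
        rw [sum_range_succ, ih]
        ring
    rw [h7]
    have : (0 : ℝ) ≤ (1 / 2 : ℝ) ^ (I + 1) := by positivity
    linarith
  have h7 : (Nat.card {a // p a ∧ ¬ g a} : ℝ) * H ≤ 3 * T := by
    calc (Nat.card {a // p a ∧ ¬ g a} : ℝ) * H
        ≤ ((Nat.card {a // p a ∧ q0 a} : ℝ) + ((Nat.card {a // p a ∧ q1 a} : ℝ) +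
      ∑ i ∈ range (I + 1), (Nat.card {a // p a ∧ q i a} : ℝ))) * H :=
          mul_le_mul_of_nonneg_right h3 hH.le
      _ = (Nat.card {a // p a ∧ q0 a} : ℝ) * H + ((Nat.card {a // p a ∧ q1 a} : ℝ) * H +
          (∑ i ∈ range (I + 1), (Nat.card {a // p a ∧ q i a} : ℝ)) * H) := by ring
      _ ≤ T + (T + T * 1) := add_le_add h0 (add_le_add h1
          (h5.trans (mul_le_mul_of_nonneg_left h6 hT)))
      _ = 3 * T := by ring
  have h8 : (0 : ℝ) ≤ (Nat.card {a // p a ∧ ¬ g a} : ℝ) := Nat.cast_nonneg _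
  have h9 : (Nat.card {a // p a ∧ ¬ g a} : ℝ) * (4 * n) ≤
      (Nat.card {a // p a ∧ ¬ g a} : ℝ) * H := mul_le_mul_of_nonneg_left hn h8
  linarith

/-- one side, uniform or planted -/
private theorem side {α : Type} [Fintype α] (p : α → Prop) {inst : DecidablePred p}
    (fa fb : α → ℝ) (fr : ℕ → α → ℝ) (hb0 : ∀ a, 0 ≤ fb a) (hr0 : ∀ i a, 0 ≤ fr i a)
    (t₀ n : ℕ) (T R H N0 pt WE : ℝ) (ht₀ : 1 ≤ t₀) (hT : 0 ≤ T) (hR0 : 0 < R) (hRH : R ≤ H)
    (hN0 : 0 < N0) (hn : 4 * (n : ℝ) ≤ H) (hH2 : H * H ≤ 2 ^ (2 ^ 22 * t₀))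
    (ha : (Nat.card {a // p a ∧ H * H * N0 < fa a} : ℝ) * (H * H * N0) ≤ R * N0 * T)
    (hb : ∑ a ∈ @Finset.filter α p inst univ, fb a ≤ pt * (R * N0 * T))
    (hpt : pt * (WE * (H * H)) ≤ 1) (hWE : 0 ≤ WE) (X : ℕ → ℝ)
    (hX : ∀ t, t₀ ≤ t → 2 ^ 22 * t ≤ n → X t * 2 ^ (7 * (2 ^ 22 * t)) ≤ 1)
    (hr : ∀ t, t₀ ≤ t → 2 ^ 22 * t ≤ n →
      ∑ a ∈ @Finset.filter α p inst univ, fr t a ≤ X t * (R * N0 * T)) :
    (n : ℝ) * Nat.card {a // p a ∧ ¬ (fa a ≤ H * H * N0 ∧ fb a * WE ≤ N0 ∧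
      ∀ t, t₀ ≤ t → 2 ^ 22 * t ≤ n →
        fr t a * 2 ^ (5 * (2 ^ 22 * t)) ≤ 2 ^ (2 ^ 22 * t₀) * N0)} ≤ T := by
  have hH : 0 < H := lt_of_lt_of_le hR0 hRH
  have hHN : 0 < H * N0 := by positivity
  have hRT : R * N0 * T ≤ H * N0 * T :=
    mul_le_mul_of_nonneg_right (mul_le_mul_of_nonneg_right hRH hN0.le) hT
  refine half p _ (fun a => H * H * N0 < fa a) (fun a => N0 < fb a * WE)
    (fun i a => 2 ^ 22 * (t₀ + i) ≤ n ∧
      2 ^ (2 ^ 22 * t₀) * N0 < fr (t₀ + i) a * 2 ^ (5 * (2 ^ 22 * (t₀ + i)))) n (n : ℝ) T H hT hH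
      ?_ ?_ ?_ ?_ hn
  · intro a hga
    by_contra hcon
    push Not at hcon
    refine hga ⟨hcon.1, hcon.2.1, fun t ht hnt => ?_⟩
    have h1 := hcon.2.2 (t - t₀) (by omega)
    rw [Nat.add_sub_cancel' ht] at h1
    exact h1 hnt
  · refine le_of_mul_le_mul_right ?_ hHN
    linarith
  · have h1 := mk p fb hb0 WE N0 _ hWE hb
    have h2 : pt * (WE * (R * H)) ≤ 1 := by
      rcases le_total 0 pt with hp | hp
      · refine le_trans (mul_le_mul_of_nonneg_left (mul_le_mul_of_nonneg_left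
          (mul_le_mul_of_nonneg_right hRH hH.le) hWE) hp) hpt
      · have : pt * (WE * (R * H)) ≤ 0 := mul_nonpos_of_nonpos_of_nonneg hp (by positivity)
        linarith
    refine le_of_mul_le_mul_right ?_ hN0
    calc (Nat.card {a // p a ∧ N0 < fb a * WE} : ℝ) * H * N0
        = (Nat.card {a // p a ∧ N0 < fb a * WE} : ℝ) * N0 * H := by ring
      _ ≤ pt * (R * N0 * T) * WE * H := mul_le_mul_of_nonneg_right h1 hH.le
      _ = pt * (WE * (R * H)) * (T * N0) := by ring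
      _ ≤ 1 * (T * N0) := mul_le_mul_of_nonneg_right h2 (by positivity)
      _ = T * N0 := one_mul _
  · intro i _
    by_cases hin : 2 ^ 22 * (t₀ + i) ≤ n
    · have hti : t₀ ≤ t₀ + i := Nat.le_add_right _ _
      have h1 := mk p (fr (t₀ + i)) (hr0 _) (2 ^ (5 * (2 ^ 22 * (t₀ + i))))
        (2 ^ (2 ^ 22 * t₀) * N0) _ (by positivity) (hr _ hti hin)
      have h2 := hX _ hti hin
      have h3 : (2 : ℝ) ^ (i + 1) ≤ 2 ^ (2 * (2 ^ 22 * (t₀ + i))) := by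
        refine pow_le_pow_right₀ (by norm_num) ?_
        omega
      obtain ⟨u, hu⟩ : ∃ u : ℕ, u = 2 ^ 22 * (t₀ + i) := ⟨_, rfl⟩
      rw [← hu] at h1 h2 h3
      have hcard : (Nat.card {a // p a ∧ 2 ^ 22 * (t₀ + i) ≤ n ∧
          2 ^ (2 ^ 22 * t₀) * N0 < fr (t₀ + i) a * 2 ^ (5 * (2 ^ 22 * (t₀ + i)))} : ℝ) =
          (Nat.card {a // p a ∧
          2 ^ (2 ^ 22 * t₀) * N0 < fr (t₀ + i) a * 2 ^ (5 * u)} : ℝ) := by
        congr 1
        refine Nat.card_congr (Equiv.subtypeEquivRight fun a => ?_)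
        rw [← hu]
        constructor
        · rintro ⟨e1, _, e3⟩; exact ⟨e1, e3⟩
        · rintro ⟨e1, e3⟩; exact ⟨e1, hu ▸ hin, e3⟩
      rw [hcard]
      obtain ⟨c, hc⟩ : ∃ c : ℝ, c = (Nat.card {a // p a ∧
          2 ^ (2 ^ 22 * t₀) * N0 < fr (t₀ + i) a * 2 ^ (5 * u)} : ℝ) := ⟨_, rfl⟩
      rw [← hc] at h1 ⊢
      have hc0 : 0 ≤ c := by rw [hc]; exact Nat.cast_nonneg _
      have hRT0 : 0 ≤ R * N0 * T := by positivity
      have h4 : c * (2 ^ (2 ^ 22 * t₀) * N0) * 2 ^ (2 * u) ≤ H * N0 * T := by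
        calc c * (2 ^ (2 ^ 22 * t₀) * N0) * 2 ^ (2 * u)
            ≤ X (t₀ + i) * (R * N0 * T) * 2 ^ (5 * u) * 2 ^ (2 * u) :=
              mul_le_mul_of_nonneg_right h1 (by positivity)
          _ = X (t₀ + i) * 2 ^ (7 * u) * (R * N0 * T) := by
              rw [show 7 * u = 5 * u + 2 * u by ring, pow_add]
              ring
          _ ≤ 1 * (R * N0 * T) := mul_le_mul_of_nonneg_right h2 hRT0
          _ = R * N0 * T := one_mul _
          _ ≤ H * N0 * T := hRT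
      refine le_of_mul_le_mul_right ?_ hHN
      calc c * (H * 2 ^ (i + 1)) * (H * N0) = c * ((H * H) * 2 ^ (i + 1) * N0) := by ring
        _ ≤ c * (2 ^ (2 ^ 22 * t₀) * 2 ^ (2 * u) * N0) := by
            refine mul_le_mul_of_nonneg_left (mul_le_mul_of_nonneg_right ?_ hN0.le) hc0
            exact mul_le_mul hH2 h3 (by positivity) (by positivity)
        _ = c * (2 ^ (2 ^ 22 * t₀) * N0) * 2 ^ (2 * u) := by ring
        _ ≤ H * N0 * T := h4
        _ = T * (H * N0) := by ring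
    · have hemp : Nat.card {a // p a ∧ 2 ^ 22 * (t₀ + i) ≤ n ∧
          2 ^ (2 ^ 22 * t₀) * N0 < fr (t₀ + i) a * 2 ^ (5 * (2 ^ 22 * (t₀ + i)))} = 0 := by
        have : IsEmpty {a // p a ∧ 2 ^ 22 * (t₀ + i) ≤ n ∧
            2 ^ (2 ^ 22 * t₀) * N0 < fr (t₀ + i) a * 2 ^ (5 * (2 ^ 22 * (t₀ + i)))} :=
          ⟨fun a => hin a.2.2.1⟩
        exact Nat.card_of_isEmpty
      rw [hemp]
      simpa using hT

private theorem sav_ge (k n m : ℕ) (hk : 1 ≤ k) : Real.log k / k ≤ sav n k m := by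
  have hk0 : (0 : ℝ) < k := by exact_mod_cast hk
  unfold sav
  refine div_le_div_of_nonneg_right (Real.log_le_log hk0 ?_) hk0.le
  have : (0 : ℝ) ≤ m / (2 ^ k * n) := by positivity
  nlinarith

private theorem num (ε : ℝ) (h0 : 0 < ε) (h1 : ε ≤ 1) : ∃ K : ℕ, 2 ≤ K ∧ ∀ k n m : ℕ, K ≤ k →
    K * k ≤ n → 4 * (n : ℝ) ≤ (2 : ℝ) ^ (ε / 2 * sav n k m * n) ∧ 1 ≤ sav n k m * n := by
  have hl2 : 0 < Real.log 2 := Real.log_pos (by norm_num)
  have hl2' := Real.log_two_lt_d9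
  obtain ⟨δ, hδ⟩ : ∃ δ : ℝ, δ = ε / 2 * Real.log 2 / 3 := ⟨_, rfl⟩
  have hδ0 : 0 < δ := by rw [hδ]; positivity
  have hδ1 : δ ≤ 1 := by
    have : ε / 2 * Real.log 2 ≤ 1 * 1 :=
      mul_le_mul (by linarith) (by linarith) hl2.le (by norm_num)
    rw [hδ]; linarith
  refine ⟨⌈Real.exp (1 / δ)⌉₊ + ⌈2 / δ⌉₊ + 2, by omega, ?_⟩
  intro k n m hk hkn
  have hK1 : Real.exp (1 / δ) ≤ k := by
    refine (Nat.le_ceil _).trans ?_
    exact_mod_cast (by omega : ⌈Real.exp (1 / δ)⌉₊ ≤ k)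
  have hk0 : (0 : ℝ) < k := lt_of_lt_of_le (Real.exp_pos _) hK1
  have hk1 : 1 ≤ k := by exact_mod_cast hk0
  obtain ⟨x, hx⟩ : ∃ x : ℝ, x = n / k := ⟨_, rfl⟩
  obtain ⟨L, hL⟩ : ∃ L : ℝ, L = Real.log k := ⟨_, rfl⟩
  have hx2 : 2 / δ ≤ x := by
    have e1 : 2 / δ ≤ (⌈2 / δ⌉₊ : ℝ) := Nat.le_ceil _
    have e2 : (⌈2 / δ⌉₊ : ℝ) ≤ x := by
      rw [hx, le_div_iff₀ hk0]
      have : ⌈2 / δ⌉₊ * k ≤ n := le_trans (Nat.mul_le_mul_right k (by omega)) hkn
      exact_mod_cast this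
    exact e1.trans e2
  have hL1 : 1 / δ ≤ L := by
    rw [hL, ← Real.log_exp (1 / δ)]
    exact Real.log_le_log (Real.exp_pos _) hK1
  have hd1 : 1 ≤ 1 / δ := by
    rw [le_div_iff₀ hδ0]; linarith
  have hd2 : 2 ≤ 2 / δ := by
    rw [le_div_iff₀ hδ0]; linarith
  have hLδ : 1 ≤ δ * L := by
    rw [div_le_iff₀ hδ0] at hL1
    linarith
  have hxδ : 2 ≤ δ * x := by
    rw [div_le_iff₀ hδ0] at hx2
    linarith
  have hx0 : 0 < x := by linarith
  have hL0 : 1 ≤ L := by linarith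
  have hn0 : (0 : ℝ) < n := by
    have : (n : ℝ) = x * k := by rw [hx]; field_simp
    rw [this]; positivity
  have hlam : x * L ≤ sav n k m * n := by
    have h2 := mul_le_mul_of_nonneg_right (sav_ge k n m hk1) hn0.le
    have h3 : Real.log k / k * n = x * L := by rw [hx, hL]; ring
    linarith
  refine ⟨?_, ?_⟩
  · have hlog : Real.log (4 * n) ≤ Real.log 2 * (ε / 2 * sav n k m * n) := by
      have e1 : Real.log (4 * n) = Real.log 4 + (L + Real.log x) := by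
        rw [Real.log_mul (by norm_num) hn0.ne', hL, hx, Real.log_div hn0.ne' hk0.ne']
        ring
      have e2 : Real.log x ≤ x := (Real.log_le_sub_one_of_pos hx0).trans (by linarith)
      have e3 : Real.log 4 ≤ 2 := by
        rw [show (4 : ℝ) = 2 ^ (2 : ℕ) by norm_num, Real.log_pow]
        push_cast
        linarith
      have e4 : Real.log 2 * (ε / 2 * (x * L)) = 3 * (δ * (x * L)) := by
        rw [hδ]; ring
      have e5 : Real.log 2 * (ε / 2 * (x * L)) ≤ Real.log 2 * (ε / 2 * sav n k m * n) := by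
        refine mul_le_mul_of_nonneg_left ?_ hl2.le
        rw [mul_assoc]
        exact mul_le_mul_of_nonneg_left hlam (by positivity)
      have e6 : x * 1 ≤ x * (δ * L) := mul_le_mul_of_nonneg_left hLδ hx0.le
      have e7 : L * 2 ≤ L * (δ * x) := mul_le_mul_of_nonneg_left hxδ (by linarith)
      have e8 : x * (δ * L) = δ * (x * L) := by ring
      have e9 : L * (δ * x) = δ * (x * L) := by ring
      rw [e1]
      linarith
    rw [Real.rpow_def_of_pos (by norm_num), ← Real.exp_log (by positivity : (0:ℝ) < 4 * n)]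
    exact Real.exp_le_exp.2 hlog
  · have e1 : 1 * 1 ≤ x * L := mul_le_mul (by linarith) hL0 (by norm_num) hx0.le
    linarith

theorem pf_YGO (hXNS : T_XNS) (hEXV : T_EXV) (hEXQ : T_EXQ)
    (hPLS : Pool.Agent.H47.PL.T_PLS) (hNSS : T_NSS) (hNUF : T_NUF)
    (hOSC : Pool.Agent.H47.PL.T_OSC) : T_YGO := by
  classical
  intro ε hε
  obtain ⟨ε', hε'⟩ : ∃ ε' : ℝ, ε' = min ε 1 := ⟨_, rfl⟩
  have he0 : 0 < ε' := by rw [hε']; exact lt_min hε one_pos
  have he1 : ε' ≤ 1 := by rw [hε']; exact min_le_right _ _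
  have hee : ε' ≤ ε := by rw [hε']; exact min_le_left _ _
  obtain ⟨c, K0, hc, hns⟩ := hXNS (ε' / 2) (by linarith)
  obtain ⟨K1, hK1, hnum⟩ := num ε' he0 he1
  refine ⟨c, max K0 K1, hc, ?_⟩
  intro k n m hk hkn hm1 hm2 t₀ β pt ht1 ht2 ht3 hβ hpT0 hEU hEP hpT
  have hkK0 : K0 ≤ k := (le_max_left _ _).trans hk
  have hkK1 : K1 ≤ k := (le_max_right _ _).trans hk
  have hnK0 : K0 * k ≤ n := (Nat.mul_le_mul_right k (le_max_left _ _)).trans hkn
  have hnK1 : K1 * k ≤ n := (Nat.mul_le_mul_right k (le_max_right _ _)).trans hkn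
  have hk2 : 2 ≤ k := hK1.trans hkK1
  have hkn' : k ≤ n := le_trans (by nlinarith) hnK1
  obtain ⟨h4n, hlam⟩ := hnum k n m hkK1 hnK1
  have hns' := hns k n m hkK0 hnK0 hm1 hm2
  obtain ⟨lam, hlamd⟩ : ∃ lam : ℝ, lam = sav n k m * n := ⟨_, rfl⟩
  obtain ⟨H, hH⟩ : ∃ H : ℝ, H = (2 : ℝ) ^ (ε' / 2 * sav n k m * n) := ⟨_, rfl⟩
  rw [← hH] at h4n hns'
  rw [← hlamd] at hlam
  have hHl : H = (2 : ℝ) ^ (ε' / 2 * lam) := by rw [hH, hlamd, mul_assoc]
  have hH0 : 0 < H := by rw [hHl]; exact Real.rpow_pos_of_pos (by norm_num) _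
  have hH1 : 1 ≤ H := by
    rw [hHl]
    exact Real.one_le_rpow (by norm_num) (by positivity)
  have hHH : H * H = (2 : ℝ) ^ (ε' * lam) := by
    rw [hHl, ← Real.rpow_add (by norm_num)]
    congr 1
    ring
  have ht1' : 2 ^ 20 * lam ≤ t₀ := by rw [hlamd, ← mul_assoc]; exact ht1
  have ht2' : (t₀ : ℝ) ≤ 2 ^ 20 * lam + 1 := by rw [hlamd, ← mul_assoc]; exact ht2
  have hpT' : pt ≤ (2 : ℝ) ^ (-(2 ^ 44 * lam)) := by
    rw [hlamd, ← mul_assoc]; exact hpT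
  have ht₀ : 1 ≤ t₀ := by
    have : (1 : ℝ) ≤ t₀ := by linarith
    exact_mod_cast this
  -- numbers
  obtain ⟨N0, hN0⟩ : ∃ N0 : ℝ, N0 = 2 ^ n * guess n k m := ⟨_, rfl⟩
  obtain ⟨M, hMd⟩ : ∃ M : ℕ, M = (2 ^ k - 1) * n.descFactorial k := ⟨_, rfl⟩
  have hM : ∀ τ, (Os n k τ).card = M := fun τ => by rw [hMd]; exact (hOSC n k τ τ).1
  have hk2' : 2 ≤ 2 ^ k := by
    calc 2 = 2 ^ 1 := (pow_one 2).symm
      _ ≤ 2 ^ k := Nat.pow_le_pow_right (by norm_num) (by omega)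
  have hMR : (M : ℝ) = ((2 : ℝ) ^ k - 1) * (n.descFactorial k : ℝ) := by
    rw [hMd, Nat.cast_mul, Nat.cast_sub (by omega)]
    push_cast
    ring
  obtain ⟨P, hPd⟩ : ∃ P : ℝ, P = ((univ.filter fun p : Fml n k m × (Fin n → Bool) =>
    Dist p.1 ∧ Sat p.1 p.2).card : ℝ) := ⟨_, rfl⟩
  have hP : P = 2 ^ n * (M : ℝ) ^ m := by
    rw [hPd, card_all M hM]
    push_cast
    rfl
  obtain ⟨D, hDd⟩ : ∃ D : ℝ, D = ((univ.filter fun F : Fml n k m => Dist F).card : ℝ) := ⟨_, rfl⟩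
  have hD : D = (2 ^ k * (n.descFactorial k : ℝ)) ^ m := by
    rw [hDd, card_dist _ (fun F => by rw [mem_filter]; simp), card_Om]
    push_cast
    rfl
  have hN0' : N0 = 1 + 2 ^ n * (1 - (1 / 2 : ℝ) ^ k) ^ m := by
    rw [hN0]
    unfold guess
    rw [mul_add, ← mul_pow]
    norm_num
  have hhalf : (0 : ℝ) ≤ 1 - (1 / 2 : ℝ) ^ k := by
    have := pow_le_one₀ (n := k) (by norm_num : (0 : ℝ) ≤ 1 / 2) (by norm_num)
    linarith
  have hN01 : 1 ≤ N0 := by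
    rw [hN0']
    have : (0 : ℝ) ≤ 2 ^ n * (1 - (1 / 2 : ℝ) ^ k) ^ m := by positivity
    linarith
  have hN00 : 0 < N0 := by linarith
  have hP0 : 0 ≤ P := by rw [hPd]; exact Nat.cast_nonneg _
  have hD0 : 0 ≤ D := by rw [hDd]; exact Nat.cast_nonneg _
  have hPD : P ≤ N0 * D := by
    have h1 : P = 2 ^ n * (1 - (1 / 2 : ℝ) ^ k) ^ m * D := by
      rw [hP, hD, mul_assoc, ← mul_pow, hMR]
      congr 2
      have h2 : (1 / 2 : ℝ) ^ k * 2 ^ k = 1 := by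
        rw [← mul_pow]
        norm_num
      linear_combination (n.descFactorial k : ℝ) * h2
    rw [h1, hN0']
    nlinarith
  have hPD1 : P ≤ 1 * N0 * D := by rw [one_mul]; exact hPD
  obtain ⟨S, hS⟩ : ∃ S : ℝ, S = 2 ^ n * ∑ w ∈ range (n + 1), (n.choose w : ℝ) *
        ((2 ^ k - 2) * (n.descFactorial k : ℝ) + ((n - w).descFactorial k : ℝ)) ^ m := ⟨_, rfl⟩
  have hSP : S ≤ H * N0 * P := by
    rw [← hMR, ← hN0] at hns'
    rw [hS, hP]
    calc _ ≤ 2 ^ n * (H * N0 * (M : ℝ) ^ m) :=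
          mul_le_mul_of_nonneg_left hns' (by positivity)
      _ = _ := by ring
  have hH2 : H * H ≤ 2 ^ (2 ^ 22 * t₀) := by
    rw [hHH, ← Real.rpow_natCast 2]
    refine Real.rpow_le_rpow_of_exponent_le (by norm_num) ?_
    push_cast
    have : ε' * lam ≤ 1 * lam := mul_le_mul_of_nonneg_right he1 (by linarith)
    linarith
  obtain ⟨WE, hWE⟩ : ∃ WE : ℝ, WE = 2 ^ ((2 ^ 22 + 4) * t₀) := ⟨_, rfl⟩
  have hWE0 : 0 ≤ WE := by rw [hWE]; positivity
  have hWE1 : WE ≤ (2 : ℝ) ^ (2 ^ 43 * lam) := by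
    rw [hWE, ← Real.rpow_natCast 2]
    refine Real.rpow_le_rpow_of_exponent_le (by norm_num) ?_
    push_cast
    linarith
  have hpt : pt * (WE * (H * H)) ≤ 1 := by
    have h1 : WE * (H * H) ≤ (2 : ℝ) ^ (2 ^ 43 * lam) * (2 : ℝ) ^ (ε' * lam) := by
      rw [hHH]
      exact mul_le_mul_of_nonneg_right hWE1 (Real.rpow_nonneg (by norm_num) _)
    have h2 : pt * (WE * (H * H)) ≤
        (2 : ℝ) ^ (-(2 ^ 44 * lam)) * ((2 : ℝ) ^ (2 ^ 43 * lam) * (2 : ℝ) ^ (ε' * lam)) :=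
      (mul_le_mul_of_nonneg_right hpT' (by positivity)).trans
        (mul_le_mul_of_nonneg_left h1 (Real.rpow_nonneg (by norm_num) _))
    refine h2.trans ?_
    rw [← Real.rpow_add (by norm_num), ← Real.rpow_add (by norm_num)]
    refine Real.rpow_le_one_of_one_le_of_nonpos (by norm_num) ?_
    have : ε' * lam ≤ 1 * lam := mul_le_mul_of_nonneg_right he1 (by linarith)
    linarith
  have hXn : ∀ s : ℕ, t₀ ≤ s → 2 ^ 22 * s ≤ n →
      (bl n (2 ^ 22 * s + 4 * s + 1) * prb n k m s (128 * s) (12 * s)) *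
        2 ^ (7 * (2 ^ 22 * s)) ≤ 1 := by
    intro s hs hsn
    refine hNUF k n m s hk2 hkn' (by omega) (ht1.trans ?_) hsn
    exact_mod_cast hs
  obtain ⟨X, hX⟩ : ∃ X : ℕ → ℝ, X = fun s =>
    bl n (2 ^ 22 * s + 4 * s + 1) * prb n k m s (128 * s) (12 * s) := ⟨_, rfl⟩
  have hXn' : ∀ s : ℕ, t₀ ≤ s → 2 ^ 22 * s ≤ n → X s * 2 ^ (7 * (2 ^ 22 * s)) ≤ 1 := by
    rw [hX]; exact hXn
  have hX0 : ∀ s : ℕ, t₀ ≤ s → 2 ^ 22 * s ≤ n → 0 ≤ X s := by
    intro s hs hsn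
    rw [hX]
    unfold prb
    have e1 : ((128 * s : ℕ) : ℝ) ≤ n := by
      have : 128 * s ≤ n := by omega
      exact_mod_cast this
    have e2 : (0 : ℝ) ≤ ((12 * s : ℕ) : ℝ) := Nat.cast_nonneg _
    have e3 : (0 : ℝ) ≤ (n : ℝ) - ((128 * s : ℕ) : ℝ) + ((12 * s : ℕ) : ℝ) := by linarith
    positivity
  refine ⟨{F | (nsol F : ℝ) ≤ H * H * N0 ∧ β F * WE ≤ N0 ∧
    ∀ s, t₀ ≤ s → 2 ^ 22 * s ≤ n → (badr F s (2 ^ 22 * s + 4 * s + 1) : ℝ) *
      2 ^ (5 * (2 ^ 22 * s)) ≤ 2 ^ (2 ^ 22 * t₀) * N0}, ⟨?_, ?_⟩, fun F hF => ?_⟩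
  · -- uniform
    have hmain := side (fun F : Fml n k m => Dist F) (inst := fun _ => Classical.propDecidable _)
      (fun F => (nsol F : ℝ))
      (fun F => β F)
      (fun s F => (badr F s (2 ^ 22 * s + 4 * s + 1) : ℝ)) (fun F => hβ F)
      (fun s F => Nat.cast_nonneg _) t₀ n D 1 H N0 (pt) WE ht₀ hD0 one_pos hH1
      hN00 h4n hH2 ?_ ?_ hpt hWE0 X hXn' ?_
    · have h2 : (Nat.card {F : Fml n k m // Dist F} : ℝ) = D := by
        rw [hDd, Nat.card_eq_fintype_card, Fintype.card_subtype]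
      rw [← h2] at hmain
      exact hmain
    · have h2 := markov_uni (k := k) (m := m) M hM (H * H * N0)
      rw [← hP] at h2
      rw [nc (fun F : Fml n k m => Dist F ∧ H * H * N0 < (nsol F : ℝ))]
      refine le_trans (le_of_eq ?_) (h2.trans hPD1)
      congr 2
    · refine le_trans ?_ (mul_le_mul_of_nonneg_left hPD1 hpT0)
      rw [hPd]
      exact si hEU
    · intro s hs hsn
      refine le_trans ?_ (mul_le_mul_of_nonneg_left hPD1 (hX0 s hs hsn))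
      rw [hPd, hX]
      exact si (hEXV n k m s _ (by omega) hkn' (by omega))
  · -- planted
    have hmain := side (fun p : Fml n k m × (Fin n → Bool) => Dist p.1 ∧ Sat p.1 p.2)
      (inst := fun _ => Classical.propDecidable _)
      (fun p => (nsol p.1 : ℝ)) (fun p => β p.1)
      (fun s p => (badr p.1 s (2 ^ 22 * s + 4 * s + 1) : ℝ)) (fun p => hβ p.1)
      (fun s F => Nat.cast_nonneg _) t₀ n P H H N0 (pt) WE ht₀ hP0 hH0 le_rfl
      hN00 h4n hH2 ?_ ?_ hpt hWE0 X hXn' ?_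
    · have h2 : (Nat.card {p : Fml n k m × (Fin n → Bool) // Dist p.1 ∧ Sat p.1 p.2} : ℝ) =
          P := by
        rw [hPd, Nat.card_eq_fintype_card, Fintype.card_subtype]
      rw [← h2] at hmain
      refine le_trans (le_of_eq ?_) hmain
      congr 2
      refine Nat.card_congr (Equiv.subtypeEquivRight fun p => ?_)
      exact (and_assoc).symm
    · have h2 := hPLS n k m (H * H * N0) (by positivity)
      rw [← hS] at h2
      refine le_trans (le_of_eq ?_) (h2.trans hSP)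
      congr 2
      rw [nc (fun p : Fml n k m × (Fin n → Bool) =>
        (Dist p.1 ∧ Sat p.1 p.2) ∧ H * H * N0 < (nsol p.1 : ℝ))]
      exact Pool.Agent.H47.PL.cfi fun _ => and_assoc
    · refine le_trans ?_ (mul_le_mul_of_nonneg_left hSP hpT0)
      rw [hS]
      exact si hEP
    · intro s hs hsn
      refine le_trans ?_ (mul_le_mul_of_nonneg_left hSP (hX0 s hs hsn))
      rw [hS, hX]
      exact si (hEXQ n k m s _ hk2 hkn' (by omega))
  · rw [← hN0, ← hWE]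
    refine ⟨hF.1.trans ?_, hF.2.1, hF.2.2⟩
    refine mul_le_mul_of_nonneg_right ?_ hN00.le
    rw [hHH]
    refine Real.rpow_le_rpow_of_exponent_le (by norm_num) ?_
    rw [mul_assoc, ← hlamd]
    exact mul_le_mul_of_nonneg_right hee (by linarith)

end Pool.Agent.H47.SQU.YGO
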