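import Pool.Agent.H47.SQ.Targets5

/-!
The savings of PPSZ on random k-CNFs (MP_c62aed_lc): row YSO, renaming the variables.
-/

set_option autoImplicit false

namespace Pool.Agent.H47.SQU.YSO

open Finset Pool.Agent.H97.RK Pool.Agent.H41.SS Pool.Agent.H47.SR
open Pool.Agent.H47.PL (Sat nsol)

variable {n k m : ℕ}

/-- the assignment with the variables renamed -/
def re (π : Equiv.Perm (Fin n)) (τ : Fin n → Bool) : Fin n → Bool := fun v => τ (π.symm v)

theorem re_app (π : Equiv.Perm (Fin n)) (τ : Fin n → Bool) (v : Fin n) : re π τ (π v) = τ v := by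
  unfold re
  rw [Equiv.symm_apply_apply]

theorem re_inj (π : Equiv.Perm (Fin n)) : Function.Injective (re π) := by
  intro τ τ' h
  funext v
  rw [← re_app π τ v, ← re_app π τ' v, h]

theorem re_surj (π : Equiv.Perm (Fin n)) (τ : Fin n → Bool) : ∃ τ', re π τ' = τ := by
  refine ⟨fun v => τ (π v), ?_⟩
  funext v
  exact congrArg τ (Equiv.apply_symm_apply π v)

theorem sat_rn (π : Equiv.Perm (Fin n)) (F : Fml n k m) (τ : Fin n → Bool) :
    Sat (rn π F) (re π τ) ↔ Sat F τ := by
  unfold Sat rn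
  simp only [re_app]

theorem dst_re (π : Equiv.Perm (Fin n)) (z τ : Fin n → Bool) : dst (re π z) (re π τ) = dst z τ := by
  classical
  unfold dst
  refine (Finset.card_bij (fun v _ => π v) ?_ ?_ ?_).symm
  · intro v hv
    rw [mem_filter] at hv ⊢
    refine ⟨mem_univ _, ?_⟩
    rw [re_app, re_app]
    exact hv.2
  · intro v _ w _ h
    exact π.injective h
  · intro v hv
    rw [mem_filter] at hv
    refine ⟨π.symm v, mem_filter.2 ⟨mem_univ _, hv.2⟩, Equiv.apply_symm_apply _ _⟩

theorem gd_of (π : Equiv.Perm (Fin n)) (F : Fml n k m) (D d w : ℕ) (z : Fin n → Bool)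
    (h : Gd F D d w z) : Gd (rn π F) D d w (re π z) := by
  classical
  intro T W hTW hW hTd
  have hmem : ∀ (S : Finset (Fin n)) (v : Fin n), v ∈ S.image π.symm ↔ π v ∈ S := by
    intro S v
    rw [mem_image]
    constructor
    · rintro ⟨x, hx, rfl⟩
      rw [Equiv.apply_symm_apply]
      exact hx
    · intro hv
      exact ⟨π v, hv, Equiv.symm_apply_apply _ _⟩
  have hcard : ∀ S : Finset (Fin n), (S.image π.symm).card = S.card := fun S =>
    card_image_of_injective _ π.symm.injective
  have h1 := h (T.image π.symm) (W.image π.symm) (by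
    rw [Finset.disjoint_left]
    intro v hv hv'
    rw [hmem] at hv hv'
    exact Finset.disjoint_left.1 hTW hv hv') (by rw [hcard]; exact hW)
    (by rw [hcard, hcard]; exact hTd)
  refine lt_of_le_of_lt (card_le_card ?_) h1
  intro c hc
  rw [mem_filter] at hc ⊢
  refine ⟨mem_univ _, fun i => ?_, fun i hi => ?_⟩
  · have h2 := hc.2.1 i
    rw [mem_union] at h2 ⊢
    rw [hmem, hmem]
    exact h2
  · rw [hmem] at hi
    have h2 := hc.2.2 i hi
    rw [← re_app π z]
    exact h2

theorem rn_inv (π : Equiv.Perm (Fin n)) (F : Fml n k m) : rn π⁻¹ (rn π F) = F := by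
  funext c i
  simp [rn]

theorem re_inv (π : Equiv.Perm (Fin n)) (z : Fin n → Bool) : re π⁻¹ (re π z) = z := by
  funext v
  exact congrArg z (Equiv.symm_apply_apply π v)

theorem gd_rn (π : Equiv.Perm (Fin n)) (F : Fml n k m) (D d w : ℕ) (z : Fin n → Bool) :
    Gd (rn π F) D d w (re π z) ↔ Gd F D d w z := by
  refine ⟨fun h => ?_, gd_of π F D d w z⟩
  have h1 := gd_of π⁻¹ (rn π F) D d w (re π z) h
  rw [rn_inv, re_inv] at h1
  exact h1

theorem pf_YSO : T_YSO := by
  classical
  intro n k m F π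
  have key : ∀ (p q : (Fin n → Bool) → Prop) (i1 : DecidablePred p) (i2 : DecidablePred q),
      (∀ τ, p (re π τ) ↔ q τ) →
      (@Finset.filter _ p i1 univ).card = (@Finset.filter _ q i2 univ).card := by
    intro p q i1 i2 hpq
    refine (Finset.card_bij (fun τ _ => re π τ) ?_ ?_ ?_).symm
    · intro τ hτ
      rw [mem_filter] at hτ ⊢
      exact ⟨mem_univ _, (hpq τ).2 hτ.2⟩
    · intro τ _ τ' _ h
      exact re_inj π h
    · intro τ hτ
      rw [mem_filter] at hτ
      obtain ⟨τ', rfl⟩ := re_surj π τ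
      exact ⟨τ', mem_filter.2 ⟨mem_univ _, (hpq τ').1 hτ.2⟩, rfl⟩
  refine ⟨?_, fun t r => ?_⟩
  · unfold nsol
    exact key _ _ _ _ (sat_rn π F)
  · unfold badr
    refine key _ _ _ _ fun τ => ?_
    rw [sat_rn]
    refine and_congr_right fun _ => not_congr ⟨fun h z hz => ?_, fun h z hz => ?_⟩
    · exact (gd_rn π F _ _ _ z).1 (h (re π z) (by rw [dst_re]; exact hz))
    · obtain ⟨z', rfl⟩ := re_surj π z
      rw [dst_re] at hz
      exact (gd_rn π F _ _ _ z').2 (h z' hz)

end Pool.Agent.H47.SQU.YSO
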