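import Pool.Agent.H47.SQT.All
import Pool.Agent.H47.SQU.YFI
import Pool.Agent.H38.SQ.YRN
import Pool.Agent.H40.SQY.YLO
import Pool.Agent.H49.PPZ.YSU
import Pool.Agent.H47.SQU.YSO
import Pool.Agent.H47.SQU.YGO

/-!
The savings of PPSZ on random k-CNFs (MP_c62aed_lc): the theorem.
-/

set_option autoImplicit false

namespace Pool.Agent.H47.SQU

open Pool.Agent.H47.SR

theorem ygo : T_YGO :=
  YGO.pf_YGO SQT.xns SQT.exv SQT.exq (H13.PL.pf_PLS H32.PLN.pf_OSC) SQT.nss H23.SR.pf_NUF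
    H32.PLN.pf_OSC

theorem exact : SQU.Exact :=
  YFI.pf_YFI H38.SQ.pf_YRN YSO.pf_YSO H49.PPZ.pf_YSU ygo
    (H40.SQY.pf_YLO H51.SQ.pf_UPD H75.PPZ.pf_UPB H38.SQ.pf_YRN) SQT.xex H48.SQ.pf_XSU SQT.xlg
    (H47.SQ.XNP.pf_XNP H32.SR.pf_XNB H32.SR.pf_XNE) SQT.xeu SQT.xep H19.SQ.XNL.pf_XNL SQT.sharp

theorem main : SQU.Upper ∧ SQU.Exact := ⟨SQT.upper, exact⟩

end Pool.Agent.H47.SQU
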