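import Pool.Agent.H47.SQ.Defs

/-!
The savings of PPSZ on random k-CNFs (MP_c62aed_lc): the statement. The definitions are in
`Pool/Agent/H47/SQ/Defs.lean`. There `m = Δ 2 ^ k n` is the number of the clauses,
`sav = log (k (1 + Δ)) / k` and `guess = 2 ^ (- n) + (1 - 2 ^ (- k)) ^ m`.
-/

set_option autoImplicit false

namespace Pool.Agent.H47.SQU

open Finset Pool.Agent.H47.SQ

/-- The probability that the search succeeds which chooses an order `π` of the variables with
probability `μ π` and sets the variables `π 0, π 1, ..` in this order. -/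
noncomputable def mean {n k m : ℕ} (F : Fml n k m) (a s : ℕ) (μ : Equiv.Perm (Fin n) → ℝ) : ℝ :=
  ∑ π, μ π * success F a s (chain (List.ofFn π))

/-- For almost all `F` every search whose refutations have at most `s` lines and use consequences of
at most `sav n` clauses succeeds with probability at most `s ^ (12 / 7) 2 ^ (C sav n) guess`. -/
def Upper : Prop :=
  ∃ C : ℝ, ∀ k n m : ℕ, 2 ≤ k → k ≤ n → ∃ G : Set (Fml n k m), AlmostAll G ∧
    ∀ F ∈ G, ∀ (a s : ℕ) (T : Tree n), 1 ≤ s → (a : ℝ) ≤ sav n k m * n →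
      success F a s T ≤ (s : ℝ) ^ (12 / 7 : ℝ) * (2 : ℝ) ^ (C * sav n k m * n) * guess n k m

/-- Let `k ^ (- c) ≤ Δ ≤ 2 ^ (c k)`, and let `μ` be a distribution of the order of the variables. For
almost all `F` the search with this order (for `Δ ≥ k ^ K`: every search) whose refutations have at
most `2 ^ (c sav n)` lines and use consequences of at most `n / k` clauses succeeds with probability
at most `2 ^ ((1 + ε) sav n) guess`. For almost all pairs `(F, σ)` the search with this order in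
which a value is refuted only by a violated clause succeeds with probability at least
`2 ^ ((1 - ε) sav n) guess`. -/
def Exact : Prop :=
  ∀ ε : ℝ, 0 < ε → ∃ (c : ℝ) (K : ℕ), 0 < c ∧ ∀ k n m : ℕ, K ≤ k → K * k ≤ n →
    (2 : ℝ) ^ k * n ≤ (k : ℝ) ^ c * m → (m : ℝ) ≤ (2 : ℝ) ^ ((1 + c) * k) * n →
    ∀ μ : Equiv.Perm (Fin n) → ℝ, (∀ π, 0 ≤ μ π) → ∑ π, μ π = 1 →
    (∃ G : Set (Fml n k m), AlmostAll G ∧ ∀ F ∈ G, ∀ a s : ℕ, a ≤ n / k →
      (s : ℝ) ≤ (2 : ℝ) ^ (c * sav n k m * n) →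
      mean F a s μ ≤ (2 : ℝ) ^ ((1 + ε) * sav n k m * n) * guess n k m ∧
      (k ^ K * (2 ^ k * n) ≤ m → ∀ T : Tree n,
        success F a s T ≤ (2 : ℝ) ^ ((1 + ε) * sav n k m * n) * guess n k m)) ∧
    (n : ℝ) * Nat.card {p : Fml n k m × (Fin n → Bool) // Dist p.1 ∧ Sat p.1 p.2 ∧
      ¬ (2 : ℝ) ^ ((1 - ε) * sav n k m * n) * guess n k m ≤ mean p.1 1 1 μ} ≤
      Nat.card {p : Fml n k m × (Fin n → Bool) // Dist p.1 ∧ Sat p.1 p.2}

end Pool.Agent.H47.SQU
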